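import Mathlib
import Pool.Agent.H691R3.Main2
import Pool.Agent.H691R3.SelMain

set_option autoImplicit false

namespace Pool.Agent.Results.MP_4d5ce1_nt.ExceptionalSetRoots

open NumberField IsDedekindDomain

/-- the absolute logarithmic height of the point `[x : 1]` -/
noncomputable def height {K : Type} [Field K] [NumberField K] (x : K) : ℝ :=
  (∑ w : InfinitePlace K, (w.mult : ℝ) * Real.log (max (w x) (w 1)) +
    ∑ᶠ v : HeightOneSpectrum (RingOfIntegers K),
      Real.log (max (FinitePlace.mk v x) (FinitePlace.mk v 1))) /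
    (Module.finrank ℚ K : ℝ)

/-- the truncated counting function of the point `[x : 1]` with respect to the points
`[(α l).1 : (α l).2]`: the sum over the primes outside `T` and over `l` of the truncated local
heights -/
noncomputable def counting {K : Type} [Field K] [NumberField K]
    (T : Set (HeightOneSpectrum (RingOfIntegers K))) {q : ℕ} (α : Fin q → K × K) (x : K) : ℝ :=
  ∑ᶠ (v : HeightOneSpectrum (RingOfIntegers K)) (_ : v ∉ T),
    ∑ l : Fin q,
      min
        (Real.log
            (max (FinitePlace.mk v x) (FinitePlace.mk v 1) *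
              max (FinitePlace.mk v (α l).1) (FinitePlace.mk v (α l).2) /
              FinitePlace.mk v (x * (α l).2 - 1 * (α l).1)) /
          (Module.finrank ℚ K : ℝ))
        (Real.log (Ideal.absNorm v.asIdeal : ℝ) / (Module.finrank ℚ K : ℝ))

/-- the exponent -/
noncomputable def exponent (q : ℕ) (κ : ℝ) : ℝ :=
  min (min (2 - 2 * κ / q) (max (2 - κ) (8 / 7)))
    (if κ < 2 then 2 else if q = 3 then 80 / 133 else if q = 4 then 18 / 23
      else if q = 5 ∨ q = 6 then 1 else 2)

/-- Let `K` be a number field of degree `d`, `T` a finite set of primes, `α_1, …, α_q` (`q ≥ 2`)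
distinct points of the projective line over `K`, `0 ≤ κ ≤ q`, and `c`, `δ > 0` real. Then, for
`B ≥ 1`, the number of `x ∈ K` of height `H(x) ≤ B`, different from the `α_l`, with
`∑_{v ∉ T} ∑_l λ^(1)_v(α_l, x) < (q - κ) h(x) + c` is `O(B ^ (d e + δ))`, where
`e = exponent q κ`. -/
theorem result :
    ∀ (K : Type) [Field K] [NumberField K]
      (T : Set (HeightOneSpectrum (RingOfIntegers K))), T.Finite →
      ∀ (q : ℕ), 2 ≤ q → ∀ (α : Fin q → K × K),
        (∀ i, α i ≠ 0) →
        (∀ i j, i ≠ j → (α i).1 * (α j).2 - (α i).2 * (α j).1 ≠ 0) →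
        ∀ κ c δ : ℝ, 0 ≤ κ → κ ≤ q → 0 < δ →
          ∃ C : ℝ, ∀ B : ℝ, 1 ≤ B →
            {x : K | (∀ l, x * (α l).2 - 1 * (α l).1 ≠ 0) ∧ Real.exp (height x) ≤ B ∧
              counting T α x < ((q : ℝ) - κ) * height x + c}.Finite ∧
            ({x : K | (∀ l, x * (α l).2 - 1 * (α l).1 ≠ 0) ∧ Real.exp (height x) ≤ B ∧
              counting T α x < ((q : ℝ) - κ) * height x + c}.ncard : ℝ) ≤
              C * B ^ ((Module.finrank ℚ K : ℝ) * exponent q κ + δ) := by
  intro K _ _ T hT q hq α hα0 hα κ c δ hκ0 hκq hδ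
  classical
  set d : ℝ := (Module.finrank ℚ K : ℝ) with hd
  have hdpos : 0 < d := by
    rw [hd]
    exact_mod_cast Module.finrank_pos
  -- comparison with the unnormalised quantities
  have hheight : ∀ x : K, d * height x = Pool.Agent.H691R3.hr (Pool.Agent.H691R3.aff x) := by
    intro x
    unfold height
    rw [mul_div_cancel₀ _ hdpos.ne']
    rfl
  have hcount : ∀ x : K, d * counting T α x = Pool.Agent.H691R3.NTc T α x := by
    intro x
    unfold counting Pool.Agent.H691R3.NTc
    rw [mul_finsum]
    refine finsum_congr fun v => ?_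
    rw [finsum_eq_if, finsum_eq_if]
    split_ifs with hv
    · rw [mul_zero]
    rw [Finset.mul_sum]
    refine Finset.sum_congr rfl fun l _ => ?_
    rw [mul_min_of_nonneg _ _ hdpos.le, mul_div_cancel₀ _ hdpos.ne', mul_div_cancel₀ _ hdpos.ne']
    rfl
  have he0 : 0 ≤ exponent q κ := Pool.Agent.H691R3.expoR_nonneg hq κ hκq
  have hsel : Pool.Agent.H691R3.Sel.{0} q κ (exponent q κ) :=
    Pool.Agent.H691R3.sel_expo hq κ hκ0 hκq
  obtain ⟨C, hC, hmain⟩ := Pool.Agent.H691R3.count_all2 hq T hT α hα0 hα κ (exponent q κ) hκ0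
    he0 hsel (max (d * c) 0) (le_max_right _ _) (δ / d) (div_pos hδ hdpos)
  refine ⟨C, fun B hB => ?_⟩
  set V : Set K := {x : K | (∀ l, x * (α l).2 - 1 * (α l).1 ≠ 0) ∧ Real.exp (height x) ≤ B ∧
    counting T α x < ((q : ℝ) - κ) * height x + c} with hV
  have hB0 : 0 < B := by linarith
  have hlogB : 0 ≤ Real.log B := Real.log_nonneg hB
  have hbound : ∀ E : Finset K, (E : Set K) ⊆ V →
      (E.card : ℝ) ≤ C * B ^ (d * exponent q κ + δ) := by
    intro E hE
    have h1 := hmain (d * Real.log B) (mul_nonneg hdpos.le hlogB) E ?_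
    · refine h1.trans (le_of_eq ?_)
      rw [Real.rpow_def_of_pos hB0]
      congr 2
      field_simp
    · intro x hx
      have hxV := hE hx
      rw [hV, Set.mem_ofPred_eq] at hxV
      obtain ⟨h2, h3, h4⟩ := hxV
      refine ⟨h2, ?_, ?_⟩
      · rw [← hcount, ← hheight]
        have h5 : d * counting T α x < d * (((q : ℝ) - κ) * height x + c) :=
          mul_lt_mul_of_pos_left h4 hdpos
        have h6 : d * (((q : ℝ) - κ) * height x + c) =
            ((q : ℝ) - κ) * (d * height x) + d * c := by ring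
        rw [h6] at h5
        exact h5.trans_le (add_le_add le_rfl (le_max_left _ _))
      · rw [← hheight]
        refine mul_le_mul_of_nonneg_left ?_ hdpos.le
        rw [Real.le_log_iff_exp_le hB0]
        exact h3
  have hnn : 0 ≤ C * B ^ (d * exponent q κ + δ) := by positivity
  have hfin : V.Finite := by
    by_contra hinf
    obtain ⟨E, hEV, hEc⟩ := Set.Infinite.exists_subset_card_eq hinf
      (⌊C * B ^ (d * exponent q κ + δ)⌋₊ + 1)
    have h1 := hbound E hEV
    have h2 := Nat.lt_floor_add_one (C * B ^ (d * exponent q κ + δ))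
    rw [hEc] at h1
    push_cast at h1
    linarith
  refine ⟨hfin, ?_⟩
  rw [Set.ncard_eq_toFinset_card V hfin]
  exact hbound hfin.toFinset (by rw [Set.Finite.coe_toFinset])

end Pool.Agent.Results.MP_4d5ce1_nt.ExceptionalSetRoots
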